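import Mathlib

/-!
# MP_f79b2b_co: the lower general position number of Cartesian products

We construct, for every `m`, a connected graph `G` on `4 + 2m` vertices with `gp⁻(G) ≥ m` and
`gp⁻(G □ G) ≤ 5`.  So the inequality `gp⁻(G □ H) ≥ min {gp⁻(G), gp⁻(H)}` is false, and `gp⁻(G □ H)`
is not even bounded below by any unbounded function of this minimum.
-/

namespace Pool.Agent.Results.MP_f79b2b_co.ProductBelowMin

open SimpleGraph

section Defs
variable {V : Type*}

/-- General position sets: no three vertices of `S` lie on a common shortest path. -/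
def IsGP (G : SimpleGraph V) (S : Finset V) : Prop :=
  ∀ a ∈ S, ∀ b ∈ S, ∀ c ∈ S, a ≠ b → a ≠ c → b ≠ c →
    ¬ ∃ (u v : V) (p : G.Walk u v), p.length = G.dist u v ∧
      a ∈ p.support ∧ b ∈ p.support ∧ c ∈ p.support

/-- Maximal general position sets. -/
def IsMaxGP (G : SimpleGraph V) (S : Finset V) : Prop :=
  IsGP G S ∧ ∀ T, IsGP G T → S ⊆ T → T = S

/-- The lower general position number: the least size of a maximal general position set. -/
noncomputable def gpLower (G : SimpleGraph V) : ℕ :=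
  sInf {k | ∃ S : Finset V, IsMaxGP G S ∧ S.card = k}

end Defs

/-! ### Collinearity in terms of distances -/

/-- One of three numbers is the sum of the other two. -/
def Col (x y z : ℕ) : Prop := x = y + z ∨ y = x + z ∨ z = x + y

instance (x y z : ℕ) : Decidable (Col x y z) :=
  inferInstanceAs (Decidable (x = y + z ∨ y = x + z ∨ z = x + y))

section Dist
variable {V : Type*} {G : SimpleGraph V}

lemma dist_getVert_le (hc : G.Connected) {u v : V} (p : G.Walk u v) (i k : ℕ)
    (h : i + k ≤ p.length) : G.dist (p.getVert i) (p.getVert (i + k)) ≤ k := by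
  induction k with
  | zero => simp
  | succ k ih =>
    have h1 := ih (by omega)
    have h2 : G.Adj (p.getVert (i + k)) (p.getVert (i + k + 1)) :=
      p.adj_getVert_succ (by omega)
    have h3 := hc.dist_triangle (u := p.getVert i) (v := p.getVert (i + k))
      (w := p.getVert (i + k + 1))
    have h4 := dist_eq_one_iff_adj.2 h2
    have h5 : i + (k + 1) = i + k + 1 := by ring
    rw [h5]
    omega

lemma dist_getVert (hc : G.Connected) {u v : V} (p : G.Walk u v) (hp : p.length = G.dist u v)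
    (i j : ℕ) (hij : i ≤ j) (hj : j ≤ p.length) :
    G.dist (p.getVert i) (p.getVert j) = j - i := by
  have h1 := dist_getVert_le hc p i (j - i) (by omega)
  have h2 := dist_getVert_le hc p 0 i (by omega)
  have h3 := dist_getVert_le hc p j (p.length - j) (by omega)
  have e1 : i + (j - i) = j := by omega
  have e3 : j + (p.length - j) = p.length := by omega
  rw [e1] at h1
  rw [zero_add, p.getVert_zero] at h2
  rw [e3, p.getVert_length] at h3
  have t1 := hc.dist_triangle (u := u) (v := p.getVert i) (w := v)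
  have t2 := hc.dist_triangle (u := p.getVert i) (v := p.getVert j) (w := v)
  omega

lemma dist_getVert' (hc : G.Connected) {u v : V} (p : G.Walk u v) (hp : p.length = G.dist u v)
    (i j : ℕ) (hi : i ≤ p.length) (hj : j ≤ p.length) :
    G.dist (p.getVert i) (p.getVert j) = (j - i) + (i - j) := by
  rcases le_total i j with h | h
  · rw [dist_getVert hc p hp i j h hj]; omega
  · rw [dist_comm, dist_getVert hc p hp j i h hi]; omega

lemma col_of_walk (hc : G.Connected) {a b c u v : V} (p : G.Walk u v)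
    (hp : p.length = G.dist u v) (ha : a ∈ p.support) (hb : b ∈ p.support)
    (hcc : c ∈ p.support) : Col (G.dist a b) (G.dist a c) (G.dist b c) := by
  rw [Walk.mem_support_iff_exists_getVert] at ha hb hcc
  obtain ⟨i, rfl, hi⟩ := ha
  obtain ⟨j, rfl, hj⟩ := hb
  obtain ⟨k, rfl, hk⟩ := hcc
  rw [dist_getVert' hc p hp i j hi hj, dist_getVert' hc p hp i k hi hk,
    dist_getVert' hc p hp j k hj hk]
  unfold Col
  omega

lemma walk_of_between (hc : G.Connected) {a b c : V} (h : G.dist a c = G.dist a b + G.dist b c) :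
    ∃ p : G.Walk a c, p.length = G.dist a c ∧ b ∈ p.support := by
  obtain ⟨p, hp⟩ := hc.exists_walk_length_eq_dist a b
  obtain ⟨q, hq⟩ := hc.exists_walk_length_eq_dist b c
  refine ⟨p.append q, ?_, ?_⟩
  · rw [Walk.length_append, hp, hq, h]
  · rw [Walk.mem_support_append_iff]
    exact Or.inl p.end_mem_support

lemma exists_walk_iff (hc : G.Connected) (a b c : V) :
    (∃ (u v : V) (p : G.Walk u v), p.length = G.dist u v ∧
      a ∈ p.support ∧ b ∈ p.support ∧ c ∈ p.support) ↔
    Col (G.dist a b) (G.dist a c) (G.dist b c) := by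
  constructor
  · rintro ⟨u, v, p, hp, ha, hb, hcc⟩
    exact col_of_walk hc p hp ha hb hcc
  · rintro (h | h | h)
    · obtain ⟨p, hp, hm⟩ := walk_of_between hc (a := a) (b := c) (c := b)
        (by rw [h, dist_comm (u := c)])
      exact ⟨a, b, p, hp, p.start_mem_support, p.end_mem_support, hm⟩
    · obtain ⟨p, hp, hm⟩ := walk_of_between hc (a := a) (b := b) (c := c) h
      exact ⟨a, c, p, hp, p.start_mem_support, hm, p.end_mem_support⟩
    · obtain ⟨p, hp, hm⟩ := walk_of_between hc (a := b) (b := a) (c := c)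
        (by rw [h, dist_comm (u := b)])
      exact ⟨b, c, p, hp, hm, p.start_mem_support, p.end_mem_support⟩

lemma isGP_iff (hc : G.Connected) (S : Finset V) :
    IsGP G S ↔ ∀ a ∈ S, ∀ b ∈ S, ∀ c ∈ S, a ≠ b → a ≠ c → b ≠ c →
      ¬ Col (G.dist a b) (G.dist a c) (G.dist b c) := by
  unfold IsGP
  simp only [exists_walk_iff hc]

lemma col_swap12 {x y z : ℕ} : Col x y z ↔ Col x z y := by unfold Col; omega

lemma col_swap13 {x y z : ℕ} : Col x y z ↔ Col y x z := by unfold Col; omega

end Dist

/-! ### The graphs -/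

/-- The vertex set: four special vertices and two groups of `m` vertices. -/
abbrev W (m : ℕ) := Fin 4 ⊕ (Fin 2 × Fin m)

/-- The type of a vertex. -/
def ty {m : ℕ} : W m → Fin 6
  | Sum.inl i => ⟨i.1, by omega⟩
  | Sum.inr p => ⟨p.1.1 + 4, by omega⟩

/-- Adjacency of types: the edges 01, 02, 13, 23, 42, 43, 51, 53. -/
def adj0 (s t : Fin 6) : Bool :=
  (s, t) ∈ ([(0, 1), (0, 2), (1, 3), (2, 3), (4, 2), (4, 3), (5, 1), (5, 3),
    (1, 0), (2, 0), (3, 1), (3, 2), (2, 4), (3, 4), (1, 5), (3, 5)] : List (Fin 6 × Fin 6))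

/-- The graph `G_m`. -/
def Gr (m : ℕ) : SimpleGraph (W m) where
  Adj u v := u ≠ v ∧ (ty u = ty v ∨ adj0 (ty u) (ty v) = true)
  symm := ⟨fun u v h => ⟨h.1.symm, by
    have hs : ∀ s t, adj0 s t = adj0 t s := by decide
    rcases h.2 with h | h
    · exact Or.inl h.symm
    · exact Or.inr (hs _ _ ▸ h)⟩⟩
  loopless := ⟨fun u h => h.1 rfl⟩

/-- Distances between types. -/
def D0 (s t : Fin 6) : ℕ := if s = t then 0 else if adj0 s t then 1 else 2

lemma ty_inl {m : ℕ} (i : Fin 4) (v : W m) : ty v = ty (Sum.inl i : W m) ↔ v = Sum.inl i := by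
  rcases v with j | ⟨j, k⟩
  · simp only [ty, Fin.mk.injEq, Sum.inl.injEq]
    exact ⟨fun h => Fin.ext h, fun h => by rw [h]⟩
  · simp only [ty, Fin.mk.injEq, reduceCtorEq, iff_false]
    omega

lemma reach_two {m : ℕ} {u v : W m} (hne : u ≠ v) (h : ¬ (Gr m).Adj u v) :
    ∃ w, (Gr m).Adj u w ∧ (Gr m).Adj w v := by
  have hb : ∀ s t : Fin 6, s ≠ t → adj0 s t = false →
      ∃ i : Fin 4, adj0 s ⟨i.1, by omega⟩ = true ∧ adj0 ⟨i.1, by omega⟩ t = true := by decide
  have h1 : ty u ≠ ty v := fun h' => h ⟨hne, Or.inl h'⟩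
  have h2 : adj0 (ty u) (ty v) = false := by
    by_contra h'
    exact h ⟨hne, Or.inr (by simpa using h')⟩
  obtain ⟨i, hi, hi'⟩ := hb _ _ h1 h2
  have hl : ∀ s, adj0 s s = false := by decide
  refine ⟨Sum.inl i, ⟨?_, Or.inr hi⟩, ⟨?_, Or.inr hi'⟩⟩
  · rintro rfl
    have := hl (ty (Sum.inl i : W m))
    rw [show (⟨i.1, by omega⟩ : Fin 6) = ty (Sum.inl i : W m) from rfl] at hi
    rw [this] at hi
    exact absurd hi (by decide)
  · rintro rfl
    have := hl (ty (Sum.inl i : W m))
    rw [show (⟨i.1, by omega⟩ : Fin 6) = ty (Sum.inl i : W m) from rfl] at hi'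
    rw [this] at hi'
    exact absurd hi' (by decide)

lemma Gr_connected (m : ℕ) : (Gr m).Connected := by
  rw [connected_iff_exists_forall_reachable]
  refine ⟨Sum.inl 0, fun w => ?_⟩
  by_cases hne : Sum.inl 0 = w
  · rw [hne]
  · by_cases h : (Gr m).Adj (Sum.inl 0) w
    · exact h.reachable
    · obtain ⟨x, hx, hx'⟩ := reach_two hne h
      exact hx.reachable.trans hx'.reachable

lemma dist_Gr {m : ℕ} {u v : W m} (hne : u ≠ v) :
    (Gr m).dist u v = if ty u = ty v then 1 else D0 (ty u) (ty v) := by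
  by_cases h : (Gr m).Adj u v
  · rw [dist_eq_one_iff_adj.2 h]
    split_ifs with ht
    · rfl
    · rcases h.2 with h | h
      · exact absurd h ht
      · simp [D0, ht, h]
  · obtain ⟨w, hw, hw'⟩ := reach_two hne h
    have h1 := (Gr_connected m).dist_triangle (u := u) (v := w) (w := v)
    rw [dist_eq_one_iff_adj.2 hw, dist_eq_one_iff_adj.2 hw'] at h1
    have h2 := (Gr_connected m).one_lt_dist_of_ne_of_not_adj hne h
    have ht : ty u ≠ ty v := fun h' => h ⟨hne, Or.inl h'⟩
    have ha : ¬ adj0 (ty u) (ty v) = true := fun h' => h ⟨hne, Or.inr h'⟩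
    rw [if_neg ht]
    simp only [D0, if_neg ht, if_neg ha]
    omega

lemma dist_inl {m : ℕ} (i : Fin 4) (v : W m) :
    (Gr m).dist (Sum.inl i) v = D0 (ty (Sum.inl i : W m)) (ty v) := by
  by_cases hne : Sum.inl i = v
  · subst hne
    simp [D0]
  · rw [dist_Gr hne]
    have : ty (Sum.inl i : W m) ≠ ty v := fun h => hne ((ty_inl i v).1 h.symm).symm
    rw [if_neg this]

/-! ### Large maximal general position sets in `G_m` -/

lemma gp_insert {V : Type*} [DecidableEq V] {G : SimpleGraph V} (hc : G.Connected) {S : Finset V}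
    {w : V} (hS : IsGP G S)
    (h : ∀ b ∈ S, ∀ c ∈ S, b ≠ c → b ≠ w → c ≠ w → ¬ Col (G.dist w b) (G.dist w c) (G.dist b c)) :
    IsGP G (insert w S) := by
  rw [isGP_iff hc] at hS ⊢
  intro a ha b hb c hcc hab hac hbc
  rw [Finset.mem_insert] at ha hb hcc
  rcases ha with rfl | ha
  · have hb' := hb.resolve_left (Ne.symm hab)
    have hc' := hcc.resolve_left (Ne.symm hac)
    exact h b hb' c hc' hbc (Ne.symm hab) (Ne.symm hac)
  · rcases hb with rfl | hb
    · have hc' := hcc.resolve_left (Ne.symm hbc)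
      rw [col_swap12, dist_comm (u := a) (v := b)]
      have := h a ha c hc' hac hab (Ne.symm hbc)
      intro h'
      apply this
      unfold Col at h' ⊢
      omega
    · rcases hcc with rfl | hcc
      · have := h a ha b hb hab hac hbc
        rw [dist_comm (u := a) (v := c), dist_comm (u := b) (v := c)]
        intro h'
        apply this
        unfold Col at h' ⊢
        omega
      · exact hS a ha b hb c hcc hab hac hbc

lemma exists_max {V : Type*} [Fintype V] (G : SimpleGraph V) : ∃ S, IsMaxGP G S := by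
  classical
  have hne : (Finset.univ.filter fun S : Finset V => IsGP G S).Nonempty :=
    ⟨∅, by simp [IsGP]⟩
  obtain ⟨S, hS, hmax⟩ := Finset.exists_max_image _ Finset.card hne
  rw [Finset.mem_filter] at hS
  refine ⟨S, hS.2, fun T hT hST => ?_⟩
  have := hmax T (Finset.mem_filter.2 ⟨Finset.mem_univ _, hT⟩)
  exact (Finset.eq_of_subset_of_card_le hST this).symm

lemma dist_twin {m : ℕ} {w w' y : W m} (ht : ty w = ty w') (h : y ≠ w) (h' : y ≠ w') :
    (Gr m).dist w y = (Gr m).dist w' y := by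
  rw [dist_Gr h.symm, dist_Gr h'.symm, ht]

lemma twin_mem {m : ℕ} {S : Finset (W m)} (hS : IsMaxGP (Gr m) S) {w w' : W m} (hw : w ∈ S)
    (ht : ty w = ty w') : w' ∈ S := by
  by_contra hw'
  have hne : w' ≠ w := fun h => hw' (h ▸ hw)
  have hgp : IsGP (Gr m) (insert w' S) := by
    refine gp_insert (Gr_connected m) hS.1 ?_
    intro b hb c hc hbc hbw hcw
    have h1 : (Gr m).dist w' w = 1 := by rw [dist_Gr hne, if_pos ht.symm]
    by_cases hb' : b = w
    · subst hb'
      have h2 : (Gr m).dist w' c = (Gr m).dist b c := dist_twin ht.symm hcw (Ne.symm hbc)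
      have h3 := (Gr_connected m).pos_dist_of_ne hbc
      rw [h1, h2]
      unfold Col
      omega
    · by_cases hc' : c = w
      · subst hc'
        have h2 : (Gr m).dist w' b = (Gr m).dist c b := dist_twin ht.symm hbw hbc
        have h3 := (Gr_connected m).pos_dist_of_ne hbc
        rw [h1, h2, dist_comm (u := c) (v := b)]
        unfold Col
        omega
      · have h2 : (Gr m).dist w' b = (Gr m).dist w b := dist_twin ht.symm hbw hb'
        have h3 : (Gr m).dist w' c = (Gr m).dist w c := dist_twin ht.symm hcw hc'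
        rw [h2, h3]
        exact (isGP_iff (Gr_connected m) S).1 hS.1 w hw b hb c hc (Ne.symm hb') (Ne.symm hc') hbc
  have := hS.2 _ hgp (Finset.subset_insert w' S)
  exact hw' (this ▸ Finset.mem_insert_self w' S)

/-- The type of a special vertex. -/
def up (i : Fin 4) : Fin 6 := ⟨i.1, by omega⟩

lemma base_check : ∀ T : Finset (Fin 4),
    (∃ a ∈ T, ∃ b ∈ T, ∃ c ∈ T, a ≠ b ∧ a ≠ c ∧ b ≠ c ∧
      Col (D0 (up a) (up b)) (D0 (up a) (up c)) (D0 (up b) (up c))) ∨
    (∃ j : Fin 2, ∀ b ∈ T, ∀ c ∈ T, b ≠ c →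
      ¬ Col (D0 (up b) ⟨j.1 + 4, by omega⟩) (D0 (up c) ⟨j.1 + 4, by omega⟩)
        (D0 (up b) (up c))) := by
  decide +kernel

lemma le_card {m : ℕ} {S : Finset (W m)} (hS : IsMaxGP (Gr m) S) : m ≤ S.card := by
  classical
  rcases Nat.eq_zero_or_pos m with rfl | hm
  · exact Nat.zero_le _
  by_cases hex : ∃ j k, (Sum.inr (j, k) : W m) ∈ S
  · obtain ⟨j, k, hjk⟩ := hex
    have hall : ∀ k', (Sum.inr (j, k') : W m) ∈ S := fun k' => twin_mem hS hjk rfl
    calc m = (Finset.univ.image fun k' : Fin m => (Sum.inr (j, k') : W m)).card := by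
          rw [Finset.card_image_of_injective]
          · simp
          · intro a b hab
            simpa using hab
      _ ≤ S.card := by
          apply Finset.card_le_card
          intro v hv
          obtain ⟨k', -, rfl⟩ := Finset.mem_image.1 hv
          exact hall k'
  · exfalso
    push Not at hex
    have hc := Gr_connected m
    have hinl : ∀ v ∈ S, ∃ i : Fin 4, v = Sum.inl i := by
      rintro (i | ⟨j, k⟩) hv
      · exact ⟨i, rfl⟩
      · exact absurd hv (hex j k)
    rcases base_check (Finset.univ.filter fun i : Fin 4 => (Sum.inl i : W m) ∈ S) with h | h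
    · obtain ⟨a, ha, b, hb, c, hcc, hab, hac, hbc, hcol⟩ := h
      simp only [Finset.mem_filter, Finset.mem_univ, true_and] at ha hb hcc
      refine (isGP_iff hc S).1 hS.1 _ ha _ hb _ hcc (by simpa using hab) (by simpa using hac)
        (by simpa using hbc) ?_
      rw [dist_inl, dist_inl, dist_inl]
      exact hcol
    · obtain ⟨j, h⟩ := h
      let w : W m := Sum.inr (j, ⟨0, hm⟩)
      have hgp : IsGP (Gr m) (insert w S) := by
        refine gp_insert hc hS.1 ?_
        intro b hb c hcc hbc _ _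
        obtain ⟨b', rfl⟩ := hinl b hb
        obtain ⟨c', rfl⟩ := hinl c hcc
        rw [dist_comm (u := w), dist_comm (u := w), dist_inl, dist_inl, dist_inl]
        exact h b' (by simpa using hb) c' (by simpa using hcc) (by simpa using hbc)
      have := hS.2 _ hgp (Finset.subset_insert w S)
      exact hex j ⟨0, hm⟩ (this ▸ Finset.mem_insert_self w S)

lemma le_gpLower (m : ℕ) : m ≤ gpLower (Gr m) := by
  obtain ⟨S, hS⟩ := exists_max (Gr m)
  refine le_csInf ⟨_, S, hS, rfl⟩ ?_
  rintro k ⟨T, hT, rfl⟩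
  exact le_card hT

/-! ### The product -/

lemma dist_prod {V V' : Type*} {G : SimpleGraph V} {H : SimpleGraph V'} (hG : G.Connected)
    (hH : H.Connected) (x y : V × V') :
    (G □ H).dist x y = G.dist x.1 y.1 + H.dist x.2 y.2 := by
  have h := edist_boxProd (G := G) (H := H) x y
  rw [← ((hG.boxProd hH).preconnected x y).coe_dist_eq_edist,
    ← (hG.preconnected x.1 y.1).coe_dist_eq_edist,
    ← (hH.preconnected x.2 y.2).coe_dist_eq_edist] at h
  exact_mod_cast h

/-- The five points, as pairs of special vertices. -/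
def S5 : Finset (Fin 4 × Fin 4) := {(0, 1), (0, 2), (1, 3), (2, 3), (3, 0)}

/-- The distance of a special pair and a pair of types. -/
def dd (p : Fin 4 × Fin 4) (s t : Fin 6) : ℕ := D0 (up p.1) s + D0 (up p.2) t

lemma S5_gp : ∀ a ∈ S5, ∀ b ∈ S5, ∀ c ∈ S5, a = b ∨ a = c ∨ b = c ∨
    ¬ Col (dd a (up b.1) (up b.2)) (dd a (up c.1) (up c.2)) (dd b (up c.1) (up c.2)) := by
  decide +kernel

lemma S5_max : ∀ s t : Fin 6, (∃ p ∈ S5, s = up p.1 ∧ t = up p.2) ∨
    (∃ p ∈ S5, ∃ q ∈ S5, p ≠ q ∧ Col (dd p (up q.1) (up q.2)) (dd p s t) (dd q s t)) := by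
  decide +kernel

/-- Embedding of special pairs. -/
def emb (m : ℕ) (p : Fin 4 × Fin 4) : W m × W m := (Sum.inl p.1, Sum.inl p.2)

lemma emb_ne {m : ℕ} {p q : Fin 4 × Fin 4} : emb m p ≠ emb m q ↔ p ≠ q := by
  unfold emb
  constructor
  · rintro h rfl
    exact h rfl
  · intro h h'
    apply h
    rw [Prod.mk.injEq, Sum.inl.injEq, Sum.inl.injEq] at h'
    exact Prod.ext h'.1 h'.2

lemma dist_emb {m : ℕ} (p : Fin 4 × Fin 4) (y : W m × W m) :
    (Gr m □ Gr m).dist (emb m p) y = dd p (ty y.1) (ty y.2) := by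
  rw [dist_prod (Gr_connected m) (Gr_connected m)]
  unfold emb dd
  rw [dist_inl, dist_inl]
  rfl

lemma prod_max (m : ℕ) : IsMaxGP (Gr m □ Gr m) (S5.image (emb m)) := by
  have hc : (Gr m □ Gr m).Connected := (Gr_connected m).boxProd (Gr_connected m)
  constructor
  · rw [isGP_iff hc]
    intro a ha b hb c hcc hab hac hbc
    obtain ⟨a', ha', rfl⟩ := Finset.mem_image.1 ha
    obtain ⟨b', hb', rfl⟩ := Finset.mem_image.1 hb
    obtain ⟨c', hc', rfl⟩ := Finset.mem_image.1 hcc
    rw [dist_emb, dist_emb, dist_emb]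
    rcases S5_gp a' ha' b' hb' c' hc' with h | h | h | h
    · exact absurd h (emb_ne.1 hab)
    · exact absurd h (emb_ne.1 hac)
    · exact absurd h (emb_ne.1 hbc)
    · exact h
  · intro T hT hsub
    refine (Finset.Subset.antisymm hsub ?_).symm
    intro w hw
    rcases S5_max (ty w.1) (ty w.2) with ⟨p, hp, h1, h2⟩ | ⟨p, hp, q, hq, hpq, hcol⟩
    · refine Finset.mem_image.2 ⟨p, hp, ?_⟩
      have e1 := (ty_inl p.1 w.1).1 h1
      have e2 := (ty_inl p.2 w.2).1 h2
      unfold emb
      rw [← e1, ← e2]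
    · by_contra hw'
      have hpT : emb m p ∈ T := hsub (Finset.mem_image_of_mem _ hp)
      have hqT : emb m q ∈ T := hsub (Finset.mem_image_of_mem _ hq)
      have n1 : emb m p ≠ w := fun h => hw' (h ▸ Finset.mem_image_of_mem _ hp)
      have n2 : emb m q ≠ w := fun h => hw' (h ▸ Finset.mem_image_of_mem _ hq)
      refine (isGP_iff hc T).1 hT _ hpT _ hqT w hw (emb_ne.2 hpq) n1 n2 ?_
      rw [dist_emb, dist_emb, dist_emb]
      exact hcol

lemma gpLower_prod (m : ℕ) : gpLower (Gr m □ Gr m) ≤ 5 := by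
  refine le_trans (Nat.sInf_le ⟨_, prod_max m, rfl⟩) ?_
  exact le_trans Finset.card_image_le (by decide)

/-- **The conjectured inequality is false.**  For every `N` there is a finite connected graph `G`
with `gp⁻(G) ≥ N` and `gp⁻(G □ G) ≤ 5`; hence `gp⁻(G □ H) ≥ min {gp⁻(G), gp⁻(H)}` does not hold
for all finite graphs. -/
theorem result :
    (∀ N : ℕ, ∃ (V : Type) (_ : Fintype V) (G : SimpleGraph V),
      G.Connected ∧ N ≤ gpLower G ∧ gpLower (G □ G) ≤ 5) ∧
    ¬ (∀ (V W : Type) [Fintype V] [Fintype W] (G : SimpleGraph V) (H : SimpleGraph W),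
      min (gpLower G) (gpLower H) ≤ gpLower (G □ H)) := by
  refine ⟨fun N => ⟨W N, inferInstance, Gr N, Gr_connected N, le_gpLower N, gpLower_prod N⟩, ?_⟩
  intro h
  have h1 := h (W 6) (W 6) (Gr 6) (Gr 6)
  have h2 := le_gpLower 6
  have h3 := gpLower_prod 6
  rw [min_self] at h1
  omega

end Pool.Agent.Results.MP_f79b2b_co.ProductBelowMin
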